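import Mathlib

/-!
# Sums of unit vectors drawn from `n + 1` balanced families: further extremal configurations
-/

set_option autoImplicit false

namespace Pool.Agent.Results.MP_4da8b1_gt.MoreExtremalFamilies

open Finset

/-- Admissible families `U_1, ..., U_{n+1}` in `ℝⁿ`: each `U_i` consists of at least two and at most
`n + 1` unit vectors, and the origin is a combination of them with positive coefficients. -/
def Balanced (n : ℕ) (U : Fin (n + 1) → Finset (EuclideanSpace ℝ (Fin n))) : Prop :=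
  ∀ i, 2 ≤ (U i).card ∧ (U i).card ≤ n + 1 ∧ (∀ u ∈ U i, ‖u‖ = 1) ∧
    ∃ w : EuclideanSpace ℝ (Fin n) → ℝ, (∀ u ∈ U i, 0 < w u) ∧ ∑ u ∈ U i, w u • u = 0

/-- The largest distance from `c` to a sum formed by choosing one vector from each family. -/
noncomputable def M (n : ℕ) (U : Fin (n + 1) → Finset (EuclideanSpace ℝ (Fin n)))
    (c : EuclideanSpace ℝ (Fin n)) : ℝ :=
  sSup {r : ℝ | ∃ v : Fin (n + 1) → EuclideanSpace ℝ (Fin n), (∀ i, v i ∈ U i) ∧
    r = ‖(∑ i, v i) - c‖}

/-- The configurations of Q2: `c = 0`, `U_i = {u_i, -u_i}` with unit vectors `u_i`, and after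
relabelling: for even `n` the `u_i` are the `n + 1` vertices of a regular simplex (all mutual
distances are equal and nonzero), and for odd `n`, for some `1 ≤ k ≤ (n - 1) / 2`, the first
`2 k + 1` of them are the vertices of a regular simplex of dimension `2 k` and the others are
orthonormal and orthogonal to these. -/
def Listed (n : ℕ) (U : Fin (n + 1) → Finset (EuclideanSpace ℝ (Fin n)))
    (c : EuclideanSpace ℝ (Fin n)) : Prop :=
  c = 0 ∧ ∃ (u : Fin (n + 1) → EuclideanSpace ℝ (Fin n)) (σ : Equiv.Perm (Fin (n + 1))),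
    (∀ i, ‖u i‖ = 1) ∧ (∀ i x, x ∈ U (σ i) ↔ x = u i ∨ x = - u i) ∧
    (Even n → ∃ d : ℝ, 0 < d ∧ ∀ i j, i ≠ j → dist (u i) (u j) = d) ∧
    (Odd n → ∃ k : ℕ, 1 ≤ k ∧ k ≤ (n - 1) / 2 ∧
      (∃ d : ℝ, 0 < d ∧ ∀ i j : Fin (n + 1), i.1 < 2 * k + 1 → j.1 < 2 * k + 1 → i ≠ j →
        dist (u i) (u j) = d) ∧
      Module.finrank ℝ (Submodule.span ℝ {x | ∃ i : Fin (n + 1), i.1 < 2 * k + 1 ∧ x = u i}) =
        2 * k ∧
      (∀ i j : Fin (n + 1), 2 * k + 1 ≤ j.1 → i ≠ j → inner ℝ (u i) (u j) = 0))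

section construction

variable (m : ℕ)

/-- The vectors: a regular triangle in the plane of the first two coordinates, and the other
vectors of the standard basis. -/
noncomputable def vec (j : Fin (m + 3)) : EuclideanSpace ℝ (Fin (m + 2)) :=
  if j.1 = 0 then EuclideanSpace.single 0 1
  else if j.1 = 1 then (-1 / 2 : ℝ) • EuclideanSpace.single 0 1 +
    (√3 / 2 : ℝ) • EuclideanSpace.single 1 1
  else if j.1 = 2 then (-1 / 2 : ℝ) • EuclideanSpace.single 0 1 -
    (√3 / 2 : ℝ) • EuclideanSpace.single 1 1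
  else EuclideanSpace.single ⟨j.1 - 1, by omega⟩ 1

variable {m}

theorem vec_zero : vec m 0 = EuclideanSpace.single 0 1 := by simp [vec]

theorem vec_one : vec m 1 = (-1 / 2 : ℝ) • EuclideanSpace.single 0 1 +
    (√3 / 2 : ℝ) • EuclideanSpace.single 1 1 := by simp [vec]

theorem val_two : (2 : Fin (m + 3)).1 = 2 := by
  have h : (2 : Fin (m + 3)) = Fin.succ (Fin.succ 0) := rfl
  rw [h]
  simp

theorem two_ne_zero' : (2 : Fin (m + 3)) ≠ 0 := by
  intro h
  have := congrArg Fin.val h
  rw [val_two] at this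
  simp at this

theorem two_ne_one : (2 : Fin (m + 3)) ≠ 1 := by
  intro h
  have := congrArg Fin.val h
  rw [val_two] at this
  simp at this

theorem vec_two : vec m 2 = (-1 / 2 : ℝ) • EuclideanSpace.single 0 1 -
    (√3 / 2 : ℝ) • EuclideanSpace.single 1 1 := by
  unfold vec
  rw [if_neg (by rw [val_two]; norm_num), if_neg (by rw [val_two]; norm_num), if_pos val_two]

theorem vec_succ (j : Fin m) : vec m j.succ.succ.succ = EuclideanSpace.single j.succ.succ 1 := by
  unfold vec
  rw [if_neg (by simp), if_neg (by simp), if_neg (by simp)]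
  congr 1

/-- The squared norm of a signed sum. -/
theorem norm_sq_sum (s : Fin (m + 3) → ℝ) : ‖∑ j, s j • vec m j‖ ^ 2 =
    (s 0 - (s 1 + s 2) / 2) ^ 2 + 3 / 4 * (s 1 - s 2) ^ 2 +
      ∑ j : Fin m, s j.succ.succ.succ ^ 2 := by
  have h3 : (√3 : ℝ) ^ 2 = 3 := Real.sq_sqrt (by norm_num)
  have e1 : (Fin.succ 0 : Fin (m + 3)) = 1 := rfl
  have e2 : (Fin.succ (Fin.succ 0) : Fin (m + 3)) = 2 := rfl
  have c0 : (∑ j, s j • vec m j) 0 = s 0 - (s 1 + s 2) / 2 := by
    rw [Fin.sum_univ_succ, Fin.sum_univ_succ, Fin.sum_univ_succ, e1, e2, vec_zero, vec_one, vec_two]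
    simp only [vec_succ]
    simp [WithLp.ofLp_sum, Finset.sum_apply]
    ring
  have c1 : (∑ j, s j • vec m j) 1 = √3 / 2 * (s 1 - s 2) := by
    rw [Fin.sum_univ_succ, Fin.sum_univ_succ, Fin.sum_univ_succ, e1, e2, vec_zero, vec_one, vec_two]
    simp only [vec_succ]
    have h1 : ∀ j : Fin m, (EuclideanSpace.single j.succ.succ (1 : ℝ) :
        EuclideanSpace ℝ (Fin (m + 2))) 1 = 0 := by
      intro j
      have : (1 : Fin (m + 2)) ≠ j.succ.succ := by
        intro h
        have := congrArg Fin.val h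
        simp at this
      simp [this]
    simp [WithLp.ofLp_sum, Finset.sum_apply] at h1 ⊢
    simp [h1]
    ring
  have c2 : ∀ i : Fin m, (∑ j, s j • vec m j) i.succ.succ = s i.succ.succ.succ := by
    intro i
    rw [Fin.sum_univ_succ, Fin.sum_univ_succ, Fin.sum_univ_succ, e1, e2, vec_zero, vec_one, vec_two]
    simp only [vec_succ]
    have h0 : i.succ.succ ≠ (0 : Fin (m + 2)) := Fin.succ_ne_zero _
    have h1 : i.succ.succ ≠ (1 : Fin (m + 2)) := by
      intro h
      have := congrArg Fin.val h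
      simp at this
    simp [WithLp.ofLp_sum, Finset.sum_apply, h0, h1, Pi.single_apply]
  generalize (∑ j, s j • vec m j) = x at c0 c1 c2 ⊢
  rw [EuclideanSpace.real_norm_sq_eq, Fin.sum_univ_succ, Fin.sum_univ_succ, c0]
  have e1' : (Fin.succ 0 : Fin (m + 2)) = 1 := rfl
  rw [e1', c1]
  simp only [c2]
  rw [mul_pow, div_pow, h3]
  ring

theorem fin_cases3 (j : Fin (m + 3)) : j = 0 ∨ j = 1 ∨ j = 2 ∨ ∃ i : Fin m, j = i.succ.succ.succ := by
  refine Fin.cases (Or.inl rfl) (fun j => ?_) j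
  refine Fin.cases (Or.inr (Or.inl rfl)) (fun j => ?_) j
  refine Fin.cases (Or.inr (Or.inr (Or.inl rfl))) (fun j => ?_) j
  exact Or.inr (Or.inr (Or.inr ⟨j, rfl⟩))

theorem norm_vec (j : Fin (m + 3)) : ‖vec m j‖ = 1 := by
  have h := norm_sq_sum (m := m) (fun i => if i = j then 1 else 0)
  simp only [ite_smul, one_smul, zero_smul, Finset.sum_ite_eq', Finset.mem_univ, if_true] at h
  have h1 : ‖vec m j‖ ^ 2 = 1 := by
    rw [h]
    have s3 : ∀ (k : Fin m), (k.succ.succ.succ : Fin (m + 3)) ≠ 2 := by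
      intro k h
      have := congrArg Fin.val h
      rw [val_two] at this
      simp at this
    have s2 : ∀ (k : Fin m), (k.succ.succ.succ : Fin (m + 3)) ≠ 1 := by
      intro k h
      have := congrArg Fin.val h
      simp at this
    have s1 : ∀ (k : Fin m), (k.succ.succ.succ : Fin (m + 3)) ≠ 0 := fun k => Fin.succ_ne_zero _
    rcases fin_cases3 j with rfl | rfl | rfl | ⟨i, rfl⟩
    · simp [two_ne_zero', s1]
    · simp [two_ne_one, s2]; norm_num
    · simp [two_ne_one.symm, two_ne_zero'.symm, s3]; norm_num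
    · simp [(s1 i).symm, (s2 i).symm, (s3 i).symm]
  have h2 : (0 : ℝ) ≤ ‖vec m j‖ := norm_nonneg _
  nlinarith

/-- The families `{v, -v}`. -/
noncomputable def fam (j : Fin (m + 3)) : Finset (EuclideanSpace ℝ (Fin (m + 2))) := by
  classical exact {vec m j, - vec m j}

theorem mem_fam (j : Fin (m + 3)) (x : EuclideanSpace ℝ (Fin (m + 2))) :
    x ∈ fam j ↔ x = vec m j ∨ x = - vec m j := by
  classical
  unfold fam
  simp

theorem ne_neg (j : Fin (m + 3)) : vec m j ≠ - vec m j := by
  intro h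
  have h1 : vec m j = 0 := by
    have h3 : (2 : ℝ) • vec m j = 0 := by
      rw [two_smul]
      nth_rewrite 2 [h]
      simp
    exact (smul_eq_zero.1 h3).resolve_left (by norm_num)
  have h2 := norm_vec j
  rw [h1, norm_zero] at h2
  norm_num at h2

theorem card_fam (j : Fin (m + 3)) : (fam j).card = 2 := by
  classical
  unfold fam
  exact Finset.card_pair (ne_neg j)

theorem balanced : Balanced (m + 2) fam := by
  classical
  intro i
  refine ⟨by rw [card_fam], by rw [card_fam]; omega, ?_, fun _ => 1, fun _ _ => one_pos, ?_⟩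
  · intro u hu
    rcases (mem_fam i u).1 hu with rfl | rfl
    · exact norm_vec i
    · rw [norm_neg]; exact norm_vec i
  · unfold fam
    rw [Finset.sum_pair (ne_neg i)]
    simp

theorem M_fam : M (m + 2) fam 0 = √((m : ℝ) + 4) := by
  have hg : IsGreatest {r : ℝ | ∃ v : Fin (m + 2 + 1) → EuclideanSpace ℝ (Fin (m + 2)),
      (∀ i, v i ∈ fam i) ∧ r = ‖(∑ i, v i) - 0‖} (√((m : ℝ) + 4)) := by
    have key : ∀ s : Fin (m + 3) → ℝ, (∀ j, s j = 1 ∨ s j = -1) →
        ‖∑ j, s j • vec m j‖ ^ 2 = (s 0 - (s 1 + s 2) / 2) ^ 2 + 3 / 4 * (s 1 - s 2) ^ 2 + m := by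
      intro s hs
      rw [norm_sq_sum]
      have : ∀ j : Fin m, s j.succ.succ.succ ^ 2 = 1 := by
        intro j
        rcases hs j.succ.succ.succ with h | h <;> rw [h] <;> norm_num
      simp [this]
    constructor
    · refine ⟨fun j => (if j = 2 then (-1 : ℝ) else 1) • vec m j, fun i => ?_, ?_⟩
      · rw [mem_fam]
        by_cases h : i = 2
        · right; simp [h]
        · left; simp [h]
      · rw [sub_zero]
        have h := key (fun j => if j = 2 then (-1 : ℝ) else 1) (fun j => by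
          by_cases h : j = 2 <;> simp [h])
        simp only [two_ne_zero'.symm, two_ne_one.symm, if_false, if_true] at h
        rw [Real.sqrt_eq_iff_mul_self_eq (by positivity) (norm_nonneg _), ← pow_two, h]
        ring
    · rintro r ⟨v, hv, rfl⟩
      rw [sub_zero]
      have : ∃ s : Fin (m + 3) → ℝ, (∀ j, s j = 1 ∨ s j = -1) ∧ ∀ j, v j = s j • vec m j := by
        have h : ∀ j, ∃ t : ℝ, (t = 1 ∨ t = -1) ∧ v j = t • vec m j := by
          intro j
          rcases (mem_fam j (v j)).1 (hv j) with h | h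
          · exact ⟨1, Or.inl rfl, by rw [h, one_smul]⟩
          · exact ⟨-1, Or.inr rfl, by rw [h, neg_smul, one_smul]⟩
        choose s hs1 hs2 using h
        exact ⟨s, hs1, hs2⟩
      obtain ⟨s, hs, hvs⟩ := this
      have h := key s hs
      refine Real.le_sqrt_of_sq_le ?_
      simp only [hvs]
      have h' : ‖∑ i, s i • vec m i‖ ^ 2 ≤ (m : ℝ) + 4 := by
        rw [h]
        rcases hs 0 with h0 | h0 <;> rcases hs 1 with h1 | h1 <;> rcases hs 2 with h2 | h2 <;>
          rw [h0, h1, h2] <;> norm_num <;> linarith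
      exact h'
  exact hg.csSup_eq

theorem inner01 : inner ℝ (vec m 0) (vec m 1) = -1 / 2 := by
  rw [vec_zero, vec_one]
  simp [inner_add_right, inner_smul_right, EuclideanSpace.inner_single_left]

theorem inner03 (j : Fin m) : inner ℝ (vec m 0) (vec m j.succ.succ.succ) = 0 := by
  rw [vec_zero, vec_succ]
  have h0 : (0 : Fin (m + 2)) ≠ j.succ.succ := (Fin.succ_ne_zero _).symm
  simp [EuclideanSpace.inner_single_left]

theorem not_listed (hm : 2 ≤ m) (he : Even m) : ¬ Listed (m + 2) fam 0 := by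
  rintro ⟨-, u, σ, hu, hU, hev, -⟩
  obtain ⟨d, hd, hdist⟩ := hev (he.add (by decide))
  have hu' : ∀ i, ∃ s : ℝ, (s = 1 ∨ s = -1) ∧ u i = s • vec m (σ i) := by
    intro i
    rcases (hU i (vec m (σ i))).1 ((mem_fam _ _).2 (Or.inl rfl)) with h | h
    · exact ⟨1, Or.inl rfl, by rw [one_smul, h]⟩
    · exact ⟨-1, Or.inr rfl, by rw [h, neg_smul, one_smul, neg_neg]⟩
  have hdot : ∀ i j, ∃ s : ℝ, (s = 1 ∨ s = -1) ∧
      dist (u i) (u j) ^ 2 = 2 - 2 * s * inner ℝ (vec m (σ i)) (vec m (σ j)) := by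
    intro i j
    obtain ⟨s, hs, h1⟩ := hu' i
    obtain ⟨t, ht, h2⟩ := hu' j
    refine ⟨s * t, ?_, ?_⟩
    · rcases hs with rfl | rfl <;> rcases ht with rfl | rfl <;> norm_num
    · rw [dist_eq_norm, norm_sub_sq_real, hu i, hu j, h1, h2, inner_smul_left, inner_smul_right]
      simp
      ring
  have hj : 0 < m := by omega
  obtain ⟨s, hs, h1⟩ := hdot (σ.symm 0) (σ.symm 1)
  obtain ⟨t, ht, h2⟩ := hdot (σ.symm 0) (σ.symm (⟨0, hj⟩ : Fin m).succ.succ.succ)
  rw [σ.apply_symm_apply, σ.apply_symm_apply, inner01, hdist _ _ (by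
    intro h
    have := σ.symm.injective h
    simp at this)] at h1
  rw [σ.apply_symm_apply, σ.apply_symm_apply, inner03, hdist _ _ (by
    intro h
    exact Fin.succ_ne_zero _ (σ.symm.injective h).symm)] at h2
  rcases hs with rfl | rfl <;> linarith

end construction

/-- For every even `n ≥ 4` the equality part of the conjecture fails: there are admissible families
in `ℝⁿ` with `M = √(n + 2)` which are not among the listed configurations. -/
theorem result : ∀ n : ℕ, 4 ≤ n → Even n →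
    ∃ U : Fin (n + 1) → Finset (EuclideanSpace ℝ (Fin n)),
      Balanced n U ∧ M n U 0 = √((n : ℝ) + 2) ∧ ¬ Listed n U 0 := by
  intro n hn he
  obtain ⟨m, rfl⟩ : ∃ m, n = m + 2 := ⟨n - 2, by omega⟩
  have he' : Even m := by
    rw [Nat.even_add] at he
    exact he.2 (by decide)
  refine ⟨fam, balanced, ?_, not_listed (by omega) he'⟩
  rw [M_fam]
  congr 1
  push_cast
  ring

end Pool.Agent.Results.MP_4da8b1_gt.MoreExtremalFamilies
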